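import Pool.Agent.R1.WalkLevel

/-!
# The level of generalized cospectral mates: `v_p(L(G)) ≤ (v_p(d_n) + v_p(d_{n-1})) / 2`

For a controllable graph `G` with walk matrix `W`, whose invariant factors are
`d_1 ∣ ... ∣ d_n`, and for every prime `p` (odd or not), the least common multiple `L(G)` of the
levels of the rational regular orthogonal matrices `Q` with `Qᵀ A Q` a `(0,1)`-matrix satisfies
`v_p(L(G)) ≤ (v_p(d_n) + v_p(d_{n-1})) / 2`.
-/

set_option autoImplicit false

open Matrix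

namespace Pool.Agent.Results.MP_e39433_co.LevelBound

variable {n : ℕ}

open Classical in
/-- the adjacency matrix of a graph -/
noncomputable def adj (G : SimpleGraph (Fin n)) : Matrix (Fin n) (Fin n) ℤ :=
  Matrix.of fun i j => if G.Adj i j then 1 else 0

/-- the walk matrix `[e, A e, ..., A ^ (n - 1) e]` of a graph -/
noncomputable def walkMatrix (G : SimpleGraph (Fin n)) : Matrix (Fin n) (Fin n) ℤ :=
  Matrix.of fun i j => ((adj G ^ (j : ℕ)) *ᵥ (fun _ => 1)) i

/-- the rational regular orthogonal matrices `Q` such that `Qᵀ A Q` is a `(0,1)`-matrix -/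
def regOrth (G : SimpleGraph (Fin n)) : Set (Matrix (Fin n) (Fin n) ℚ) :=
  {Q | Qᵀ * Q = 1 ∧ (∀ i, ∑ j, Q i j = 1) ∧
    ∀ i j, (Qᵀ * (adj G).map (fun z : ℤ => (z : ℚ)) * Q) i j = 0 ∨
      (Qᵀ * (adj G).map (fun z : ℤ => (z : ℚ)) * Q) i j = 1}

/-- the level of a rational matrix: the least positive integer `k` with `k Q` integral -/
noncomputable def level (Q : Matrix (Fin n) (Fin n) ℚ) : ℕ :=
  sInf {k : ℕ | 0 < k ∧ ∀ i j, ∃ z : ℤ, (k : ℚ) * Q i j = z}

/-- the least common multiple `L(G)` of the levels of the matrices in `regOrth G`: the least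
positive integer divisible by all these levels -/
noncomputable def levelLcm (G : SimpleGraph (Fin n)) : ℕ :=
  sInf {k : ℕ | 0 < k ∧ ∀ Q ∈ regOrth G, level Q ∣ k}

/-- `d_1, ..., d_n` (indexed from `0`) are the invariant factors of `W`, the diagonal of its Smith
normal form over `ℤ` -/
def IsInvariantFactors (W : Matrix (Fin n) (Fin n) ℤ) (d : Fin n → ℕ) : Prop :=
  (∀ i j : Fin n, i ≤ j → d i ∣ d j) ∧ ∃ U V : Matrix (Fin n) (Fin n) ℤ,
    IsUnit U.det ∧ IsUnit V.det ∧ U * W * V = Matrix.diagonal fun i => (d i : ℤ)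

open Pool.Agent.R1.WalkLevel in
lemma facts (G : SimpleGraph (Fin n)) {Q : Matrix (Fin n) (Fin n) ℚ} (hQ : Q ∈ regOrth G) :
    ∃ B : Matrix (Fin n) (Fin n) ℤ, (adj G)ᵀ = adj G ∧ Qᵀ * Q = 1 ∧ Qᵀ * q (adj G) * Q = q B ∧
      Qᵀ *ᵥ (fun _ => (((1 : ℤ)) : ℚ)) = fun _ => ((1 : ℤ) : ℚ) := by
  obtain ⟨h1, h2, h3⟩ := hQ
  have h4 : ∀ i j, ∃ z : ℤ, (Qᵀ * (adj G).map (fun z : ℤ => (z : ℚ)) * Q) i j = z := by
    intro i j
    rcases h3 i j with h | h
    · exact ⟨0, by rw [h]; simp⟩
    · exact ⟨1, by rw [h]; simp⟩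
  choose B hB using h4
  refine ⟨Matrix.of B, ?_, h1, ?_, ?_⟩
  · ext i j
    rw [transpose_apply, adj, of_apply, of_apply]
    by_cases h : G.Adj i j
    · rw [if_pos h, if_pos h.symm]
    · rw [if_neg h, if_neg fun h' => h h'.symm]
  · ext i j
    exact hB i j
  · have h5 : Q *ᵥ (fun _ => (((1 : ℤ)) : ℚ)) = fun _ => ((1 : ℤ) : ℚ) := by
      funext i
      rw [mulVec, dotProduct]
      simpa using h2 i
    calc Qᵀ *ᵥ (fun _ => (((1 : ℤ)) : ℚ)) = Qᵀ *ᵥ (Q *ᵥ (fun _ => (((1 : ℤ)) : ℚ))) := by rw [h5]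
      _ = _ := by rw [mulVec_mulVec, h1, one_mulVec]

lemma lcm_spec (G : SimpleGraph (Fin n)) (hW : (walkMatrix G).det ≠ 0) :
    0 < levelLcm G ∧ ∀ Q ∈ regOrth G, level Q ∣ levelLcm G := by
  apply Nat.sInf_mem (s := {k : ℕ | 0 < k ∧ ∀ Q ∈ regOrth G, level Q ∣ k})
  refine ⟨(walkMatrix G).det.natAbs, Int.natAbs_pos.2 hW, fun Q hQ => ?_⟩
  obtain ⟨B, hA, hQQ, hB, he⟩ := facts G hQ
  rcases Nat.eq_zero_or_pos n with hn | hn
  · subst hn
    have h1 : level Q ≤ 1 := Nat.sInf_le ⟨one_pos, fun i => i.elim0⟩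
    have h2 := (Pool.Agent.R1.WalkLevel.level_spec Q).1
    have h3 : level Q = 1 := le_antisymm h1 h2
    rw [h3]
    exact one_dvd _
  · exact Int.natCast_dvd.1 (Pool.Agent.R1.WalkLevel.level_dvd_det hA hW hn hQQ hB he)

/-- `v_p(L(G)) ≤ (v_p(d_n) + v_p(d_{n-1})) / 2 ≤ v_p(det W) / 2` for every controllable graph and
every prime divisor `p` of `det W`. -/
theorem result (n : ℕ) (G : SimpleGraph (Fin n)) (hW : (walkMatrix G).det ≠ 0)
    (d : Fin n → ℕ) (hd : IsInvariantFactors (walkMatrix G) d)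
    (p : ℕ) (hp : p.Prime) (hpW : (p : ℤ) ∣ (walkMatrix G).det) :
    (0 < levelLcm G ∧ ∀ Q ∈ regOrth G, level Q ∣ levelLcm G) ∧
    ∃ i j : Fin n, (i : ℕ) + 2 = n ∧ (j : ℕ) + 1 = n ∧
      (padicValNat p (levelLcm G) : ℝ) ≤ 1 / 2 * (padicValNat p (d j) + padicValNat p (d i)) ∧
      (padicValNat p (levelLcm G) : ℝ) ≤ 1 / 2 * padicValInt p (walkMatrix G).det := by
  refine ⟨lcm_spec G hW, ?_⟩
  have := Fact.mk hp
  obtain ⟨hchain, U, V, hU, hV, hUV⟩ := hd
  -- there are at least two vertices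
  have hn : 2 ≤ n := by
    by_contra hn
    have h1 : (walkMatrix G).det = 1 := by
      rcases (show n = 0 ∨ n = 1 by omega) with h | h
      · subst h
        exact Matrix.det_fin_zero
      · subst h
        rw [Matrix.det_fin_one, walkMatrix, of_apply]
        simp
    rw [h1] at hpW
    exact hp.one_lt.ne' (by
      have := Int.natCast_dvd.1 hpW
      simpa using this)
  -- the determinant and the invariant factors
  have hprod : (walkMatrix G).det.natAbs = ∏ i, d i := by
    have h1 := congrArg (fun M => M.det.natAbs) hUV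
    simp only [det_mul, det_diagonal, Int.natAbs_mul, Int.isUnit_iff_natAbs_eq.1 hU,
      Int.isUnit_iff_natAbs_eq.1 hV, one_mul, mul_one] at h1
    rw [h1, ← Nat.cast_prod, Int.natAbs_natCast]
  have hd0 : ∀ i, d i ≠ 0 := by
    intro i hi
    apply hW
    rw [← Int.natAbs_eq_zero, hprod]
    exact Finset.prod_eq_zero (Finset.mem_univ i) hi
  obtain ⟨i, hi⟩ : ∃ i : Fin n, (i : ℕ) + 2 = n := ⟨⟨n - 2, by omega⟩, by simp only; omega⟩
  obtain ⟨j, hj⟩ : ∃ j : Fin n, (j : ℕ) + 1 = n := ⟨⟨n - 1, by omega⟩, by simp only; omega⟩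
  have hij : i ≤ j := Fin.mk_le_of_le_val (by omega)
  have hne : i ≠ j := by
    intro h
    rw [h] at hi
    omega
  -- the bound for every matrix
  have hQ : ∀ Q ∈ regOrth G, 2 * padicValNat p (level Q) ≤
      padicValNat p (d i) + padicValNat p (d j) := by
    intro Q hQ
    obtain ⟨B, hA, hQQ, hB, he⟩ := facts G hQ
    exact Pool.Agent.R1.WalkLevel.level_bound hA hW hQQ hB he U V d hU hUV i j hi hj
      (fun k hk => hchain k i hk) (hchain i j hij) (hd0 j) hp
  -- the least common multiple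
  obtain ⟨hL0, hL⟩ := lcm_spec G hW
  have hmain : 2 * padicValNat p (levelLcm G) ≤ padicValNat p (d i) + padicValNat p (d j) := by
    by_contra hcon
    push Not at hcon
    have hpos : 0 < padicValNat p (levelLcm G) := by omega
    have hpL : p ∣ levelLcm G := by
      by_contra h
      rw [padicValNat.eq_zero_of_not_dvd h] at hpos
      exact lt_irrefl _ hpos
    obtain ⟨k, hk⟩ := hpL
    have hk0 : k ≠ 0 := by
      rintro rfl
      rw [mul_zero] at hk
      omega
    have hval : padicValNat p (levelLcm G) = padicValNat p k + 1 := by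
      rw [hk, padicValNat.mul hp.ne_zero hk0, padicValNat.self hp.one_lt, add_comm]
    have hkL : levelLcm G ≤ k := by
      apply Nat.sInf_le
      refine ⟨Nat.pos_of_ne_zero hk0, fun Q hQ' => ?_⟩
      have hlev0 : level Q ≠ 0 := (Pool.Agent.R1.WalkLevel.level_spec Q).1.ne'
      rw [← (Nat.factorization_le_iff_dvd hlev0 hk0)]
      intro l
      have hdvd := (Nat.factorization_le_iff_dvd hlev0 hL0.ne').2 (hL Q hQ') l
      by_cases hl : l = p
      · subst hl
        rw [Nat.factorization_def _ hp, Nat.factorization_def _ hp]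
        have := hQ Q hQ'
        omega
      · rw [hk, Nat.factorization_mul hp.ne_zero hk0] at hdvd
        rw [Finsupp.add_apply, hp.factorization, Finsupp.single_eq_of_ne hl, zero_add] at hdvd
        exact hdvd
    rw [hk] at hkL
    have h1 := hp.two_le
    have h2 : 0 < k := Nat.pos_of_ne_zero hk0
    nlinarith
  have hdet : padicValNat p (d i) + padicValNat p (d j) ≤ padicValInt p (walkMatrix G).det := by
    rw [padicValInt, hprod, ← padicValNat.mul (hd0 i) (hd0 j)]
    have h1 : d i * d j ∣ ∏ i, d i := by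
      rw [← Finset.mul_prod_erase Finset.univ d (Finset.mem_univ i)]
      exact mul_dvd_mul_left _
        (Finset.dvd_prod_of_mem d (Finset.mem_erase.2 ⟨hne.symm, Finset.mem_univ j⟩))
    obtain ⟨k, hk⟩ := h1
    have hk0 : k ≠ 0 := by
      rintro rfl
      rw [mul_zero] at hk
      exact Finset.prod_ne_zero_iff.2 (fun i _ => hd0 i) hk
    rw [hk, padicValNat.mul (mul_ne_zero (hd0 i) (hd0 j)) hk0]
    omega
  refine ⟨i, j, hi, hj, ?_, ?_⟩
  · have : (2 * padicValNat p (levelLcm G) : ℝ) ≤ padicValNat p (d i) + padicValNat p (d j) := by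
      exact_mod_cast hmain
    linarith
  · have : (2 * padicValNat p (levelLcm G) : ℝ) ≤ padicValInt p (walkMatrix G).det := by
      exact_mod_cast hmain.trans hdet
    linarith

end Pool.Agent.Results.MP_e39433_co.LevelBound
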